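import Mathlib
import Pool.Agent.Lib.MP_c7ee41_nt.Basic

set_option autoImplicit false

/-!
# Multiplicative functions periodic modulo infinitely many primes: algebraic relations

If `F` is multiplicative, `S_F` is infinite and `Q (n, F n) = 0` (with `Q ≠ 0` a polynomial in two
variables) for all `n` in a set which meets a positive proportion of the residue classes modulo
`ℓ` for infinitely many `ℓ ∈ S_F`, then `F` is a monomial.
-/

namespace Pool.Agent.Results.MP_c7ee41_nt.AlgebraicRelation

open Pool.Agent.Lib.MP_c7ee41_nt MvPolynomial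

/-- translation of a polynomial -/
noncomputable def trZ (t : Fin 2 → ℤ) : MvPolynomial (Fin 2) ℤ →ₐ[ℤ] MvPolynomial (Fin 2) ℤ :=
  aeval (fun j => C (t j) * X j)

lemma eval_trZ (t z : Fin 2 → ℤ) (P : MvPolynomial (Fin 2) ℤ) :
    eval z (trZ t P) = eval (fun j => t j * z j) P := by
  induction P using MvPolynomial.induction_on with
  | C a => simp [trZ]
  | add p q hp hq => rw [map_add, map_add, map_add, hp, hq]
  | mul_X p i hp =>
    rw [map_mul, map_mul, map_mul, hp]
    congr 1
    simp [trZ]

lemma coeff_trZ (t : Fin 2 → ℤ) (P : MvPolynomial (Fin 2) ℤ) (m : Fin 2 →₀ ℕ) :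
    coeff m (trZ t P) = (m.prod fun j e => t j ^ e) * coeff m P := by
  classical
  induction P using MvPolynomial.induction_on' with
  | monomial u a =>
    have h1 : trZ t (monomial u a) = monomial u ((u.prod fun j e => t j ^ e) * a) := by
      unfold trZ
      rw [aeval_monomial]
      have h2 : (u.prod fun j e => (C (t j) * X j : MvPolynomial (Fin 2) ℤ) ^ e) =
          C (u.prod fun j e => t j ^ e) * monomial u 1 := by
        rw [monomial_eq (s := u) (a := (1 : ℤ)), C_1, one_mul]
        unfold Finsupp.prod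
        rw [map_prod, ← Finset.prod_mul_distrib]
        apply Finset.prod_congr rfl
        intro j _
        simp only [mul_pow, map_pow]
      rw [h2, algebraMap_eq, ← mul_assoc, ← C_mul, C_mul_monomial, mul_one, mul_comm a]
    rw [h1, coeff_monomial, coeff_monomial]
    split_ifs with h
    · rw [h]
    · simp
  | add p q hp hq => rw [map_add, coeff_add, coeff_add, hp, hq]; ring

/-- congruent arguments give congruent values -/
lemma eval_modEq {ℓ : ℕ} (P : MvPolynomial (Fin 2) ℤ) {z w : Fin 2 → ℤ}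
    (h : ∀ j, z j ≡ w j [ZMOD ℓ]) : eval z P ≡ eval w P [ZMOD ℓ] := by
  rw [eval_eq, eval_eq]
  apply Int.ModEq.sum
  intro m _
  apply Int.ModEq.mul_left
  apply Int.ModEq.prod
  intro j _
  exact (h j).pow _

/-- the value of `Q` at `(n, F n)` -/
noncomputable def val2 (F : ArithmeticFunction ℤ) (Q : MvPolynomial (Fin 2) ℤ) (n : ℕ) : ℤ :=
  eval ![(n : ℤ), F n] Q

lemma val2_modEq {F : ArithmeticFunction ℤ} {ℓ : ℕ} (hℓ : ℓ ∈ SF F)
    (Q : MvPolynomial (Fin 2) ℤ) {m n : ℕ} (hm : 0 < m) (hn : 0 < n) (h : m ≡ n [MOD ℓ]) :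
    val2 F Q m ≡ val2 F Q n [ZMOD ℓ] := by
  apply eval_modEq
  intro j
  fin_cases j
  · exact Int.natCast_modEq_iff.2 h
  · exact modEq_of_modEq hℓ hm hn h

open Classical in
/-- the units modulo `ℓ` at which `Q (x, F x)` vanishes -/
noncomputable def zs (F : ArithmeticFunction ℤ) (Q : MvPolynomial (Fin 2) ℤ) (ℓ : ℕ)
    [NeZero ℓ] : Finset (ZMod ℓ)ˣ :=
  Finset.univ.filter (fun x => (ℓ : ℤ) ∣ val2 F Q (x : ZMod ℓ).val)

/-- two translates of a large set have a large intersection -/
lemma dilate {Γ : Type*} [CommGroup Γ] [Fintype Γ] [DecidableEq Γ] (g : Γ) (R : Finset Γ) (θ : ℕ)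
    (hR : Fintype.card Γ ≤ θ * R.card) :
    ∃ t, 1 ≤ t ∧ t < 2 * θ ∧
      Fintype.card Γ ≤ (2 * θ) ^ 2 * (R.filter (fun x => g ^ t * x ∈ R)).card := by
  classical
  set M := 2 * θ with hM
  set N := Fintype.card Γ with hN
  by_contra hcon
  push Not at hcon
  set f : Γ → ℕ := fun x => ((Finset.range M).filter (fun i => g ^ i * x ∈ R)).card with hf
  have hNpos : 0 < N := Fintype.card_pos
  have hθpos : 0 < θ := Nat.pos_of_ne_zero (by rintro rfl; simp at hR; omega)
  have hsum : ∑ x, f x = M * R.card := by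
    simp only [hf, Finset.card_filter]
    rw [Finset.sum_comm]
    have : ∀ i ∈ Finset.range M, (∑ x, if g ^ i * x ∈ R then 1 else 0) = R.card := by
      intro i _
      rw [← Finset.card_filter]
      apply Finset.card_bij (fun x _ => g ^ i * x)
      · intro x hx; exact (Finset.mem_filter.1 hx).2
      · intro x _ y _ h; exact mul_left_cancel h
      · intro y hy
        exact ⟨(g ^ i)⁻¹ * y, by simpa using hy, by simp⟩
    rw [Finset.sum_congr rfl this, Finset.sum_const, Finset.card_range, smul_eq_mul]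
  -- pairs
  have hpairs : ∑ x, f x * f x = ∑ i ∈ Finset.range M, ∑ j ∈ Finset.range M,
      (Finset.univ.filter (fun x => g ^ i * x ∈ R ∧ g ^ j * x ∈ R)).card := by
    simp only [hf, Finset.card_filter, Finset.sum_mul_sum]
    rw [Finset.sum_comm]
    apply Finset.sum_congr rfl
    intro i _
    rw [Finset.sum_comm]
    apply Finset.sum_congr rfl
    intro j _
    apply Finset.sum_congr rfl
    intro x _
    split_ifs <;> simp_all
  have hoff : ∀ i j, i < M → j < M → i ≠ j →
      M ^ 2 * (Finset.univ.filter (fun x => g ^ i * x ∈ R ∧ g ^ j * x ∈ R)).card < N := by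
    have key : ∀ i j, i < j → j < M →
        M ^ 2 * (Finset.univ.filter (fun x => g ^ i * x ∈ R ∧ g ^ j * x ∈ R)).card < N := by
      intro i j hij hj
      have h1 := hcon (j - i) (by omega) (by omega)
      have h2 : (Finset.univ.filter (fun x => g ^ i * x ∈ R ∧ g ^ j * x ∈ R)).card =
          (R.filter (fun x => g ^ (j - i) * x ∈ R)).card := by
        apply Finset.card_bij (fun x _ => g ^ i * x)
        · intro x hx
          rw [Finset.mem_filter] at hx ⊢
          refine ⟨hx.2.1, ?_⟩
          rw [← mul_assoc, ← pow_add, Nat.sub_add_cancel hij.le]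
          exact hx.2.2
        · intro x _ y _ h; exact mul_left_cancel h
        · intro y hy
          rw [Finset.mem_filter] at hy
          refine ⟨(g ^ i)⁻¹ * y, ?_, by simp⟩
          rw [Finset.mem_filter]
          refine ⟨Finset.mem_univ _, by simpa using hy.1, ?_⟩
          have h3 : g ^ j * ((g ^ i)⁻¹ * y) = g ^ (j - i) * y := by
            rw [← mul_assoc, ← pow_sub g hij.le]
          rw [h3]
          exact hy.2
      rw [h2]
      exact h1
    intro i j hi hj hij
    rcases lt_or_gt_of_ne hij with h | h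
    · exact key i j h hj
    · have := key j i h hi
      simp only [and_comm] at this ⊢
      exact this
  have hdiag : ∀ i, (Finset.univ.filter (fun x => g ^ i * x ∈ R ∧ g ^ i * x ∈ R)).card =
      R.card := by
    intro i
    simp only [and_self]
    apply Finset.card_bij (fun x _ => g ^ i * x)
    · intro x hx; exact (Finset.mem_filter.1 hx).2
    · intro x _ y _ h; exact mul_left_cancel h
    · intro y hy
      exact ⟨(g ^ i)⁻¹ * y, by simpa using hy, by simp⟩
  have hMpos : 0 < M := by omega
  -- upper bound for the number of pairs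
  have hup : M ^ 2 * ∑ x, f x * f x ≤ M ^ 2 * (M * R.card) + M ^ 2 * N := by
    rw [hpairs, Finset.mul_sum]
    have h1 : ∀ i ∈ Finset.range M, M ^ 2 * (∑ j ∈ Finset.range M,
        (Finset.univ.filter (fun x => g ^ i * x ∈ R ∧ g ^ j * x ∈ R)).card) ≤
          M ^ 2 * R.card + M * N := by
      intro i hi
      rw [← Finset.add_sum_erase _ _ hi, hdiag i, mul_add]
      apply Nat.add_le_add_left
      rw [Finset.mul_sum]
      calc _ ≤ ∑ _j ∈ (Finset.range M).erase i, N := by
            apply Finset.sum_le_sum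
            intro j hj
            rw [Finset.mem_erase, Finset.mem_range] at hj
            exact (hoff i j (Finset.mem_range.1 hi) hj.2 hj.1.symm).le
        _ = ((Finset.range M).erase i).card * N := by rw [Finset.sum_const, smul_eq_mul]
        _ ≤ M * N := by
            apply Nat.mul_le_mul_right
            refine (Finset.card_le_card (Finset.erase_subset _ _)).trans ?_
            rw [Finset.card_range]
    calc _ ≤ ∑ _i ∈ Finset.range M, (M ^ 2 * R.card + M * N) := Finset.sum_le_sum h1
      _ = M ^ 2 * (M * R.card) + M ^ 2 * N := by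
        rw [Finset.sum_const, Finset.card_range, smul_eq_mul]; ring
  have hup' : ∑ x, f x * f x ≤ M * R.card + N := by
    have h1 : M ^ 2 * ∑ x, f x * f x ≤ M ^ 2 * (M * R.card + N) := by
      rw [mul_add]; exact hup
    exact Nat.le_of_mul_le_mul_left h1 (by positivity)
  -- lower bound : f² + 2 ≥ 3 f  hence ∑ f² + 2 N ≥ 3 M |R|
  have hlow : 3 * (M * R.card) ≤ ∑ x, f x * f x + 2 * N := by
    rw [← hsum, Finset.mul_sum]
    have h1 : ∀ x, 3 * f x ≤ f x * f x + 2 := by
      intro x
      rcases Nat.lt_or_ge (f x) 2 with h | h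
      · interval_cases f x <;> norm_num
      · obtain ⟨e, he⟩ := Nat.exists_eq_add_of_le h
        rw [he]
        nlinarith
    calc ∑ x, 3 * f x ≤ ∑ x, (f x * f x + 2) := Finset.sum_le_sum fun x _ => h1 x
      _ = ∑ x, f x * f x + 2 * N := by
        rw [Finset.sum_add_distrib, Finset.sum_const, Finset.card_univ, smul_eq_mul]
        ring
  have h3 : 2 * N ≤ M * R.card := by
    rw [hM, mul_assoc]
    exact Nat.mul_le_mul_left _ hR
  omega

section main

variable {F : ArithmeticFunction ℤ}

lemma mem_zs {Q : MvPolynomial (Fin 2) ℤ} {ℓ : ℕ} [NeZero ℓ] (x : (ZMod ℓ)ˣ) :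
    x ∈ zs F Q ℓ ↔ (ℓ : ℤ) ∣ val2 F Q (x : ZMod ℓ).val := by
  unfold zs
  simp

/-- the main inductive step -/
theorem main_induction (hF : F.IsMultiplicative) (hS : (SF F).Infinite) : ∀ (m : ℕ)
    (Q : MvPolynomial (Fin 2) ℤ) (θ : ℕ), Q.support.card ≤ m → Q ≠ 0 →
    {ℓ : ℕ | ℓ ∈ SF F ∧ ∃ _h : NeZero ℓ, ℓ - 1 ≤ θ * (zs F Q ℓ).card}.Infinite →
    ∃ a : ℕ, ∀ n : ℕ, 0 < n → (F n).natAbs = n ^ a := by
  classical
  intro m
  induction m with
  | zero =>
    intro Q θ hcard hQ _
    exfalso
    apply hQ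
    rw [← MvPolynomial.support_eq_empty, ← Finset.card_eq_zero]
    omega
  | succ m ih =>
    intro Q θ hcard hQ hinf
    obtain ⟨m₀, hm₀⟩ := support_nonempty.2 hQ
    by_cases hone : Q.support = {m₀}
    · -- a single monomial: no zeros
      exfalso
      have hQeq : Q = monomial m₀ (coeff m₀ Q) := by
        conv_lhs => rw [← support_sum_monomial_coeff Q, hone, Finset.sum_singleton]
      obtain ⟨ℓ, ⟨hℓS, hne, hle⟩, hlt⟩ := hinf.exists_gt ((coeff m₀ Q).natAbs + 1)
      have hp := hℓS.1
      have hpos : 0 < (zs F Q ℓ).card := by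
        by_contra h0
        have h1 : (zs F Q ℓ).card = 0 := by omega
        rw [h1, mul_zero] at hle
        omega
      obtain ⟨x, hx⟩ := Finset.card_pos.1 hpos
      rw [mem_zs, val2, hQeq, eval_monomial, Finsupp.prod_fintype _ _ (fun _ => pow_zero _),
        Fin.prod_univ_two] at hx
      set v := (x : ZMod ℓ).val with hv
      have hFact : Fact ℓ.Prime := ⟨hp⟩
      have hvpos : 0 < v := by
        rw [hv, ZMod.val_pos]
        exact x.ne_zero
      have hvlt : v < ℓ := ZMod.val_lt _
      have hnd : ¬ ℓ ∣ v := fun h => by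
        have := Nat.le_of_dvd hvpos h
        omega
      have hpz : Prime (ℓ : ℤ) := Nat.prime_iff_prime_int.1 hp
      rcases hpz.2.2 _ _ hx with h | h
      · have h1 := Int.natAbs_dvd_natAbs.2 h
        rw [Int.natAbs_natCast] at h1
        have h2 : (coeff m₀ Q).natAbs ≠ 0 := by
          rw [Int.natAbs_ne_zero]
          exact mem_support_iff.1 hm₀
        have := Nat.le_of_dvd (Nat.pos_of_ne_zero h2) h1
        omega
      · rcases hpz.2.2 _ _ h with h | h
        · have h1 := hpz.dvd_of_dvd_pow h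
          have h2 : (ℓ : ℤ) ∣ (v : ℤ) := h1
          exact hnd (by exact_mod_cast h2)
        · have h1 := hpz.dvd_of_dvd_pow h
          exact not_dvd hF hS hℓS hvpos hnd h1
    · -- at least two monomials
      obtain ⟨m₁, hm₁, hm₁₀⟩ : ∃ m₁ ∈ Q.support, m₁ ≠ m₀ := by
        by_contra hcon
        push Not at hcon
        apply hone
        ext m'
        rw [Finset.mem_singleton]
        exact ⟨fun h => hcon m' h, fun h => h ▸ hm₀⟩
      by_cases hgoal : ∃ a : ℕ, ∀ n : ℕ, 0 < n → (F n).natAbs = n ^ a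
      · exact hgoal
      -- for every `n ≥ 2` we get a relation
      have hrel : ∀ n : ℕ, 2 ≤ n → ∃ t : ℕ, 1 ≤ t ∧
          ((n : ℤ) ^ t) ^ (m₁ 0) * ((F n) ^ t) ^ (m₁ 1) =
            ((n : ℤ) ^ t) ^ (m₀ 0) * ((F n) ^ t) ^ (m₀ 1) := by
        intro n hn
        -- restrict to `ℓ > n`
        set B := {ℓ : ℕ | (ℓ ∈ SF F ∧ ∃ _h : NeZero ℓ, ℓ - 1 ≤ θ * (zs F Q ℓ).card) ∧ n < ℓ}
          with hB
        have hBinf : B.Infinite := by
          have h1 := hinf.sdiff (Set.finite_Iic n)
          refine h1.mono ?_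
          rintro ℓ ⟨h2, h3⟩
          exact ⟨h2, not_le.1 h3⟩
        have hex : ∀ ℓ ∈ B, ∃ t, 1 ≤ t ∧ t < 2 * θ ∧ ∃ _h : NeZero ℓ, ∃ hc : Nat.Coprime n ℓ,
            ℓ - 1 ≤ (2 * θ) ^ 2 *
            ((zs F Q ℓ).filter (fun x => ZMod.unitOfCoprime n hc ^ t * x ∈ zs F Q ℓ)).card := by
          rintro ℓ ⟨⟨hℓS, hne, hle⟩, hlt⟩
          have hp := hℓS.1
          have hFact : Fact ℓ.Prime := ⟨hp⟩
          have hc : Nat.Coprime n ℓ := by
            rw [Nat.coprime_comm, Nat.Prime.coprime_iff_not_dvd hp]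
            intro h
            have := Nat.le_of_dvd (by omega) h
            omega
          have hcard' : Fintype.card (ZMod ℓ)ˣ = ℓ - 1 := ZMod.card_units ℓ
          obtain ⟨t, ht1, ht2, ht3⟩ := dilate (ZMod.unitOfCoprime n hc) (zs F Q ℓ) θ (by
            rw [hcard']; exact hle)
          exact ⟨t, ht1, ht2, hne, hc, by rw [← hcard']; exact ht3⟩
        choose! τ hτ using hex
        -- pigeonhole on `t`
        obtain ⟨t, ht, hBt⟩ : ∃ t ∈ Set.Ico 1 (2 * θ), (B ∩ τ ⁻¹' {t}).Infinite := by
          by_contra hcon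
          push Not at hcon
          apply hBinf
          have h1 : B ⊆ ⋃ t ∈ Set.Ico 1 (2 * θ), (B ∩ τ ⁻¹' {t}) := by
            intro ℓ hℓ
            simp only [Set.mem_iUnion]
            exact ⟨τ ℓ, ⟨(hτ ℓ hℓ).1, (hτ ℓ hℓ).2.1⟩, hℓ, rfl⟩
          refine (Set.Finite.biUnion (Set.finite_Ico 1 (2 * θ)) fun t ht => ?_).subset h1
          exact hcon t ht
        refine ⟨t, ht.1, ?_⟩
        set s₀ : ℤ := ((n : ℤ) ^ t) ^ (m₀ 0) * ((F n) ^ t) ^ (m₀ 1) with hs0
        set Q' := trZ ![(n : ℤ) ^ t, (F n) ^ t] Q - C s₀ * Q with hQ'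
        have hcoeff : ∀ m', coeff m' Q' =
            (((n : ℤ) ^ t) ^ (m' 0) * ((F n) ^ t) ^ (m' 1) - s₀) * coeff m' Q := by
          intro m'
          rw [hQ', coeff_sub, coeff_trZ, coeff_C_mul, Finsupp.prod_fintype _ _
            (fun _ => pow_zero _), Fin.prod_univ_two]
          simp only [Matrix.cons_val_zero, Matrix.cons_val_one]
          ring
        by_cases hQ'0 : Q' = 0
        · have h1 := hcoeff m₁
          rw [hQ'0, coeff_zero] at h1
          rcases mul_eq_zero.1 h1.symm with h2 | h2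
          · exact sub_eq_zero.1 h2
          · exact absurd h2 (mem_support_iff.1 hm₁)
        · exfalso
          apply hgoal
          have hsupp : Q'.support ⊆ Q.support.erase m₀ := by
            intro m' hm'
            rw [mem_support_iff, hcoeff] at hm'
            rw [Finset.mem_erase, mem_support_iff]
            constructor
            · rintro rfl
              apply hm'
              rw [hs0, sub_self, zero_mul]
            · exact right_ne_zero_of_mul hm'
          apply ih Q' ((2 * θ) ^ 2) ?_ hQ'0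
          · refine hBt.mono ?_
            rintro ℓ ⟨hℓB, hℓt⟩
            have hℓt' : τ ℓ = t := hℓt
            obtain ⟨-, -, hne, hc, hle⟩ := hτ ℓ hℓB
            rw [hℓt'] at hle
            refine ⟨hℓB.1.1, hne, hle.trans (Nat.mul_le_mul_left _ (Finset.card_le_card ?_))⟩
            intro x hx
            rw [Finset.mem_filter, mem_zs, mem_zs] at hx
            rw [mem_zs]
            obtain ⟨hx1, hx2⟩ := hx
            have hp := hℓB.1.1.1
            have hFact : Fact ℓ.Prime := ⟨hp⟩
            have hvpos : 0 < (x : ZMod ℓ).val := by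
              rw [ZMod.val_pos]; exact x.ne_zero
            have hv2pos : 0 < ((ZMod.unitOfCoprime n hc ^ t * x : (ZMod ℓ)ˣ) : ZMod ℓ).val := by
              rw [ZMod.val_pos]; exact Units.ne_zero _
            set v := (x : ZMod ℓ).val with hv
            have hnt : 0 < n ^ t * v := Nat.mul_pos (pow_pos (by omega) t) hvpos
            have hcong : ((ZMod.unitOfCoprime n hc ^ t * x : (ZMod ℓ)ˣ) : ZMod ℓ).val ≡
                n ^ t * v [MOD ℓ] := by
              rw [← ZMod.natCast_eq_natCast_iff, ZMod.natCast_zmod_val]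
              push_cast
              rw [ZMod.coe_unitOfCoprime, hv, ZMod.natCast_zmod_val]
            have h1 := val2_modEq hℓB.1.1 Q hv2pos hnt hcong
            have h2 : (ℓ : ℤ) ∣ val2 F Q (n ^ t * v) :=
              (Int.modEq_zero_iff_dvd).1 (h1.symm.trans ((Int.modEq_zero_iff_dvd).2 hx2))
            have h3 : val2 F Q (n ^ t * v) = eval ![(v : ℤ), F v]
                (trZ ![(n : ℤ) ^ t, (F n) ^ t] Q) := by
              rw [eval_trZ, val2]
              congr 2
              funext j
              fin_cases j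
              · simp
              · show F (n ^ t * v) = (F n) ^ t * F v
                rw [completely_mul hF hS (pow_pos (by omega) t) hvpos,
                  pow_eq hF hS (by omega : 0 < n)]
            have h4 : val2 F Q' v = val2 F Q (n ^ t * v) - s₀ * val2 F Q v := by
              rw [h3]
              unfold val2
              rw [hQ', map_sub, map_mul, eval_C]
            rw [h4]
            exact dvd_sub h2 (Dvd.dvd.mul_left hx1 _)
          · have h1 := Finset.card_le_card hsupp
            rw [Finset.card_erase_of_mem hm₀] at h1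
            omega
      -- the exponents
      have habs : ∀ n : ℕ, 2 ≤ n →
          n ^ (m₁ 0) * (F n).natAbs ^ (m₁ 1) = n ^ (m₀ 0) * (F n).natAbs ^ (m₀ 1) := by
        intro n hn
        obtain ⟨t, ht, h⟩ := hrel n hn
        have h1 := congrArg Int.natAbs h
        simp only [Int.natAbs_mul, Int.natAbs_pow, Int.natAbs_natCast] at h1
        have h2 : (n ^ (m₁ 0) * (F n).natAbs ^ (m₁ 1)) ^ t =
            (n ^ (m₀ 0) * (F n).natAbs ^ (m₀ 1)) ^ t := by
          rw [mul_pow, mul_pow, ← pow_mul, ← pow_mul, ← pow_mul, ← pow_mul, mul_comm (m₁ 0) t,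
            mul_comm (m₁ 1) t, mul_comm (m₀ 0) t, mul_comm (m₀ 1) t, pow_mul, pow_mul, pow_mul,
            pow_mul]
          exact h1
        exact Nat.pow_left_injective (by omega) h2
      -- `m₁ 1 ≠ m₀ 1`
      have h11 : m₁ 1 ≠ m₀ 1 := by
        intro h
        have h1 := habs 2 le_rfl
        rw [h] at h1
        have h2 : 0 < (F 2).natAbs ^ (m₀ 1) :=
          pow_pos (Int.natAbs_pos.2 (ne_zero hF hS (by norm_num))) _
        have h3 := Nat.eq_of_mul_eq_mul_right h2 h1
        have h4 := Nat.pow_right_injective le_rfl h3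
        apply hm₁₀
        ext j
        fin_cases j
        · exact h4
        · exact h
      -- reduce to `|F n| ^ v = n ^ u`
      obtain ⟨u, v, hv, huv⟩ : ∃ u v : ℕ, 0 < v ∧ ∀ n : ℕ, 2 ≤ n → (F n).natAbs ^ v = n ^ u := by
        have hFpos : ∀ n : ℕ, 2 ≤ n → 0 < (F n).natAbs := fun n hn =>
          Int.natAbs_pos.2 (ne_zero hF hS (by omega))
        -- general statement for ordered exponents
        have key : ∀ a b c d : ℕ, b < d → (∀ n : ℕ, 2 ≤ n →
            n ^ a * (F n).natAbs ^ b = n ^ c * (F n).natAbs ^ d) →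
            ∃ u v : ℕ, 0 < v ∧ ∀ n : ℕ, 2 ≤ n → (F n).natAbs ^ v = n ^ u := by
          intro a b c d hbd h
          have hca : c ≤ a := by
            have h1 := h 2 le_rfl
            have h2 : 2 ^ c * (F 2).natAbs ^ b ≤ 2 ^ a * (F 2).natAbs ^ b := by
              rw [h1]
              exact Nat.mul_le_mul_left _ (Nat.pow_le_pow_right (hFpos 2 le_rfl) hbd.le)
            have h3 := Nat.le_of_mul_le_mul_right h2 (pow_pos (hFpos 2 le_rfl) b)
            exact (Nat.pow_le_pow_iff_right (by norm_num)).1 h3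
          refine ⟨a - c, d - b, by omega, fun n hn => ?_⟩
          have h1 := h n hn
          have h2 : n ^ a = n ^ c * n ^ (a - c) := by rw [← pow_add]; congr 1; omega
          have h3 : (F n).natAbs ^ d = (F n).natAbs ^ b * (F n).natAbs ^ (d - b) := by
            rw [← pow_add]; congr 1; omega
          rw [h2, h3] at h1
          have h4 : (n ^ c * (F n).natAbs ^ b) * n ^ (a - c) =
              (n ^ c * (F n).natAbs ^ b) * (F n).natAbs ^ (d - b) := by
            linarith
          have h5 : 0 < n ^ c * (F n).natAbs ^ b :=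
            Nat.mul_pos (pow_pos (by omega) c) (pow_pos (hFpos n hn) b)
          exact (Nat.eq_of_mul_eq_mul_left h5 h4).symm
        rcases lt_or_gt_of_ne h11 with h | h
        · exact key _ _ _ _ h habs
        · exact key _ _ _ _ h fun n hn => (habs n hn).symm
      -- evaluate at `2`
      have h2 := huv 2 le_rfl
      obtain ⟨a, ha⟩ : ∃ a, (F 2).natAbs = 2 ^ a := by
        have h3 : (F 2).natAbs ∣ 2 ^ u := by
          rw [← h2]
          exact dvd_pow_self _ hv.ne'
        obtain ⟨a, -, ha⟩ := (Nat.dvd_prime_pow Nat.prime_two).1 h3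
        exact ⟨a, ha⟩
      have hau : a * v = u := by
        rw [ha, ← pow_mul] at h2
        exact Nat.pow_right_injective le_rfl h2
      refine ⟨a, fun n hn => ?_⟩
      rcases Nat.lt_or_ge n 2 with h | h
      · have : n = 1 := by omega
        rw [this, hF.map_one]
        simp
      · have h3 := huv n h
        rw [← hau, pow_mul] at h3
        exact Nat.pow_left_injective (n := v) (by omega) h3

end main

/-- If `F` is multiplicative, `Q ≠ 0` is an integer polynomial in two variables, and for infinitely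
many primes `ℓ` with `F (n + ℓ) ≡ F n (mod ℓ)` for all `n`, the set `{n : Q (n, F n) = 0}` meets at
least `δ ℓ` residue classes modulo `ℓ`, then `F n = n ^ k`. -/
theorem result (F : ArithmeticFunction ℤ) (hF : F.IsMultiplicative)
    (Q : MvPolynomial (Fin 2) ℤ) (hQ : Q ≠ 0) (δ : ℝ) (hδ : 0 < δ)
    (h : Set.Infinite {ℓ : ℕ | ℓ.Prime ∧ (∀ n : ℕ, 0 < n → F (n + ℓ) ≡ F n [ZMOD (ℓ : ℤ)]) ∧
      δ * ℓ ≤ (Set.ncard {a : ZMod ℓ |
        ∃ n : ℕ, 0 < n ∧ (n : ZMod ℓ) = a ∧ eval ![(n : ℤ), F n] Q = 0} : ℝ)}) :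
    ∃ k : ℕ, ∀ n : ℕ, 0 < n → F n = (n : ℤ) ^ k := by
  classical
  have hS : (SF F).Infinite := h.mono fun ℓ hℓ => ⟨hℓ.1, hℓ.2.1⟩
  obtain ⟨θ, hθ⟩ := exists_nat_ge (2 / δ)
  have hθ' : 2 ≤ δ * θ := by
    rw [div_le_iff₀ hδ] at hθ
    linarith
  obtain ⟨a, ha⟩ := main_induction hF hS Q.support.card Q θ le_rfl hQ (by
    have h1 := h.sdiff (Set.finite_Iic (θ + 1))
    refine h1.mono ?_
    rintro ℓ ⟨⟨hp, hper, hle⟩, hgt⟩
    have hℓS : ℓ ∈ SF F := ⟨hp, hper⟩
    have hgt' : θ + 1 < ℓ := not_le.1 hgt
    have hne : NeZero ℓ := ⟨hp.ne_zero⟩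
    have hFact : Fact ℓ.Prime := ⟨hp⟩
    refine ⟨hℓS, hne, ?_⟩
    -- compare the two counts
    have hcount : Set.ncard {a : ZMod ℓ |
        ∃ n : ℕ, 0 < n ∧ (n : ZMod ℓ) = a ∧ eval ![(n : ℤ), F n] Q = 0} ≤
          (zs F Q ℓ).card + 1 := by
      have h2 : {a : ZMod ℓ | ∃ n : ℕ, 0 < n ∧ (n : ZMod ℓ) = a ∧ eval ![(n : ℤ), F n] Q = 0} ⊆
          ((insert 0 ((zs F Q ℓ).image (fun x : (ZMod ℓ)ˣ => (x : ZMod ℓ))) :
            Finset (ZMod ℓ)) : Set (ZMod ℓ)) := by
        rintro a ⟨n, hn, rfl, h0⟩
        rw [Finset.mem_coe, Finset.mem_insert]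
        by_cases hna : (n : ZMod ℓ) = 0
        · exact Or.inl hna
        · refine Or.inr (Finset.mem_image.2 ⟨Units.mk0 _ hna, ?_, rfl⟩)
          rw [mem_zs]
          have hvpos : 0 < ((n : ZMod ℓ)).val := by
            rw [ZMod.val_pos]; exact hna
          have h3 := val2_modEq hℓS Q hvpos hn (by
            rw [← ZMod.natCast_eq_natCast_iff, ZMod.natCast_zmod_val])
          have h4 : val2 F Q n = 0 := h0
          rw [h4] at h3
          exact (Int.modEq_zero_iff_dvd).1 h3
      refine (Set.ncard_le_ncard h2 (Finset.finite_toSet _)).trans ?_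
      rw [Set.ncard_coe_finset]
      refine (Finset.card_insert_le _ _).trans ?_
      exact Nat.add_le_add_right Finset.card_image_le 1
    have h3 : δ * ℓ ≤ (zs F Q ℓ).card + 1 := hle.trans (by exact_mod_cast hcount)
    have h4 : (2 : ℝ) * ℓ ≤ θ * ((zs F Q ℓ).card + 1) := by
      calc (2 : ℝ) * ℓ ≤ (δ * θ) * ℓ := by
            apply mul_le_mul_of_nonneg_right hθ' (by positivity)
        _ = θ * (δ * ℓ) := by ring
        _ ≤ θ * ((zs F Q ℓ).card + 1) := by
            apply mul_le_mul_of_nonneg_left h3 (by positivity)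
    have h5 : 2 * ℓ ≤ θ * ((zs F Q ℓ).card + 1) := by exact_mod_cast h4
    have h6 : θ * ((zs F Q ℓ).card + 1) = θ * (zs F Q ℓ).card + θ := by ring
    omega)
  exact ⟨a, sign_lemma hS hF.map_one ha⟩

end Pool.Agent.Results.MP_c7ee41_nt.AlgebraicRelation
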