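import Mathlib
import Pool.Agent.Lib.MP_c7ee41_nt.Barrier

set_option autoImplicit false

/-!
# The growth barrier for multiplicative functions periodic modulo infinitely many primes

Let `F` be multiplicative and not a monomial, and let `θ(X)` be the sum of `log ℓ` over the primes
`ℓ ≤ X` of `S_F`. Then, for every `ε > 0` and all large `X`, the maximum `B` of `|F(n)|` over
`n ≤ X ^ (1 + ε)` satisfies `(1 + ε) log B > θ(X) - ε log X`. No hypothesis on the density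
of `S_F` is needed.
-/

namespace Pool.Agent.Results.MP_c7ee41_nt.GrowthBarrier

open Pool.Agent.Lib.MP_c7ee41_nt Filter

open Classical in
/-- Let `F` be multiplicative, `ε > 0`, and let `S_F` be the set of primes `ℓ` with
`F (n + ℓ) ≡ F n (mod ℓ)` for all `n ≥ 1`. Suppose that one of the following holds for arbitrarily
large `X`:
(a) there is a `B` with `|F n| ≤ B` for all `n ≤ X ^ (1 + ε)` and
    `(1 + ε) log B + ε log X ≤ ∑_{ℓ ∈ S_F, ℓ ≤ X} log ℓ`;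
(b) `#{ℓ ∈ S_F : ℓ ≤ X} ≥ X ^ (b + ε)`, where `|F n| ≤ exp (C n ^ b)` for all `n`;
(c) `∑_{ℓ ∈ S_F, ℓ ≤ X} log ℓ ≥ (K + ε) log X`, where `|F n| ≤ C n ^ K` for all `n`;
(d) `#{ℓ ∈ S_F : ℓ ≤ X} ≥ (K + ε) log log X`, where `|F n| ≤ C n ^ K` for all `n`.
Then `F` is a monomial. -/
theorem result (F : ArithmeticFunction ℤ) (hF : F.IsMultiplicative) (ε : ℝ) (hε : 0 < ε)
    (h : (∃ᶠ X : ℕ in atTop, ∃ B : ℝ,
          (∀ n : ℕ, 0 < n → (n : ℝ) ≤ (X : ℝ) ^ (1 + ε) → |(F n : ℝ)| ≤ B) ∧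
          (1 + ε) * Real.log B + ε * Real.log X ≤
            ∑ ℓ ∈ (Finset.Icc 1 X).filter
              (fun ℓ : ℕ => ℓ.Prime ∧ ∀ n : ℕ, 0 < n → F (n + ℓ) ≡ F n [ZMOD (ℓ : ℤ)]),
              Real.log ℓ) ∨
      (∃ b C : ℝ, 0 ≤ b ∧ (∀ n : ℕ, 0 < n → |(F n : ℝ)| ≤ Real.exp (C * (n : ℝ) ^ b)) ∧
        ∃ᶠ X : ℕ in atTop, (X : ℝ) ^ (b + ε) ≤
          (((Finset.Icc 1 X).filter
            (fun ℓ : ℕ => ℓ.Prime ∧ ∀ n : ℕ, 0 < n → F (n + ℓ) ≡ F n [ZMOD (ℓ : ℤ)])).card : ℝ)) ∨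
      (∃ K C : ℝ, 0 ≤ K ∧ (∀ n : ℕ, 0 < n → |(F n : ℝ)| ≤ C * (n : ℝ) ^ K) ∧
        ∃ᶠ X : ℕ in atTop, (K + ε) * Real.log X ≤
          ∑ ℓ ∈ (Finset.Icc 1 X).filter
            (fun ℓ : ℕ => ℓ.Prime ∧ ∀ n : ℕ, 0 < n → F (n + ℓ) ≡ F n [ZMOD (ℓ : ℤ)]),
            Real.log ℓ) ∨
      (∃ K C : ℝ, 0 ≤ K ∧ (∀ n : ℕ, 0 < n → |(F n : ℝ)| ≤ C * (n : ℝ) ^ K) ∧
        ∃ᶠ X : ℕ in atTop, (K + ε) * Real.log (Real.log X) ≤
          (((Finset.Icc 1 X).filter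
            (fun ℓ : ℕ => ℓ.Prime ∧ ∀ n : ℕ, 0 < n → F (n + ℓ) ≡ F n [ZMOD (ℓ : ℤ)])).card : ℝ))) :
    ∃ k : ℕ, ∀ n : ℕ, 0 < n → F n = (n : ℤ) ^ k := by
  rcases h with h | ⟨b, C, hb, hgrow, h⟩ | ⟨K, C, hK, hgrow, h⟩ | ⟨K, C, hK, hgrow, h⟩
  · refine main_barrier hF hε (h.mono fun X hX => ?_)
    obtain ⟨B, hB, hθ⟩ := hX
    refine ⟨B, hB, ?_⟩
    rw [← sum_eq]
    exact hθ
  · refine main_exp hF hb hε hgrow (h.mono fun X hX => ?_)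
    rw [← card_eq]
    exact hX
  · refine main_poly hF hK hε hgrow (h.mono fun X hX => ?_)
    rw [← sum_eq]
    exact hX
  · refine main_poly hF hK (show 0 < ε / 2 by positivity) hgrow
      (theta_of_cnt (ε := ε / 2) (by positivity) (by positivity) (h.mono fun X hX => ?_))
    have e : K + ε / 2 + ε / 2 = K + ε := by ring
    rw [e, ← card_eq]
    exact hX

end Pool.Agent.Results.MP_c7ee41_nt.GrowthBarrier
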