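import Mathlib
import Pool.Agent.Lib.MP_c7ee41_nt.Basic
import Pool.Agent.Lib.MP_c7ee41_nt.HalfG

set_option autoImplicit false

/-!
# Multiplicative functions periodic modulo infinitely many primes: the square root barrier

If `F` is multiplicative and `S_F(X) ≥ X ^ (1 / 2 + ε)` for arbitrarily large `X`, then `F` is a
monomial.  There is no hypothesis on the growth of `F`.
-/

namespace Pool.Agent.Results.MP_c7ee41_nt.HalfPower

open Pool.Agent.Lib.MP_c7ee41_nt Filter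

/-- the square of `F`, as a function to the positive integers -/
noncomputable def sqF (F : ArithmeticFunction ℤ) (n : ℕ) : ℕ := (F n).natAbs ^ 2

lemma sqF_cast (F : ArithmeticFunction ℤ) (n : ℕ) : ((sqF F n : ℕ) : ℤ) = F n ^ 2 := by
  unfold sqF
  push_cast
  exact sq_abs (F n)

lemma sqF_CM {F : ArithmeticFunction ℤ} (hF : F.IsMultiplicative) (hS : (SF F).Infinite) :
    CM (sqF F) where
  one := by unfold sqF; rw [hF.map_one]; rfl
  mul m n hm hn := by
    unfold sqF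
    rw [completely_mul hF hS hm hn, Int.natAbs_mul, mul_pow]
  pos n hn := by
    unfold sqF
    have := ne_zero hF hS hn
    positivity

lemma sqF_Per (F : ArithmeticFunction ℤ) : Per (SF F) (sqF F) := by
  intro ℓ hℓ m n hm hn hmn
  have h1 := (modEq_of_modEq hℓ hm hn hmn).pow 2
  rw [← sqF_cast, ← sqF_cast] at h1
  exact Int.natCast_modEq_iff.1 h1

/-- comparison of the counting functions -/
lemma freq_of_half {S : Set ℕ} {ε : ℝ} (hε : 0 < ε) {k : ℕ} (hk : 1 ≤ k * ε)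
    (h : ∀ N : ℕ, ∃ X : ℕ, N ≤ X ∧ (X : ℝ) ^ (1 / 2 + ε) ≤ (cntS S X : ℝ)) :
    ∃ᶠ Z : ℕ in atTop, Z ^ (k + 2) ≤ cntS S ((2 * Z) ^ (2 * k)) := by
  classical
  have hk0 : k ≠ 0 := by
    rintro rfl
    norm_num at hk
  rw [frequently_atTop]
  intro Z₀
  obtain ⟨X, hX, hXc⟩ := h ((Z₀ + 1) ^ (2 * k))
  -- the largest `Z` with `Z ^ (2 k) ≤ X`
  set Z := Nat.findGreatest (fun Z => Z ^ (2 * k) ≤ X) X with hZdef
  have hle : ∀ W, W ^ (2 * k) ≤ X → W ≤ X := by
    intro W hW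
    exact (Nat.le_self_pow (by omega) W).trans hW
  have hZ1 : Z ^ (2 * k) ≤ X := by
    have := Nat.findGreatest_spec (P := fun Z => Z ^ (2 * k) ≤ X) (m := 0) (n := X)
      (Nat.zero_le _) (by
        show 0 ^ (2 * k) ≤ X
        rw [zero_pow (by omega)]
        exact Nat.zero_le _)
    exact this
  have hZ0 : Z₀ + 1 ≤ Z := Nat.le_findGreatest (hle _ hX) hX
  have hZ2 : X < (Z + 1) ^ (2 * k) := by
    by_contra hcon
    push Not at hcon
    have := Nat.le_findGreatest (P := fun Z => Z ^ (2 * k) ≤ X) (hle _ hcon) hcon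
    omega
  refine ⟨Z, by omega, ?_⟩
  have hZX : X ≤ (2 * Z) ^ (2 * k) :=
    hZ2.le.trans (Nat.pow_le_pow_left (by omega) _)
  have hmono : cntS S X ≤ cntS S ((2 * Z) ^ (2 * k)) := by
    unfold cntS
    apply Finset.card_le_card
    intro ℓ hℓ
    rw [Finset.mem_filter, Finset.mem_Icc] at hℓ ⊢
    exact ⟨⟨hℓ.1.1, hℓ.1.2.trans hZX⟩, hℓ.2⟩
  refine le_trans ?_ hmono
  have hZpos : (1 : ℝ) ≤ Z := by
    have : 1 ≤ Z := by omega
    exact_mod_cast this
  have hreal : ((Z ^ (k + 2) : ℕ) : ℝ) ≤ (cntS S X : ℝ) := by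
    refine le_trans ?_ hXc
    calc ((Z ^ (k + 2) : ℕ) : ℝ) = (Z : ℝ) ^ ((k + 2 : ℕ) : ℝ) := by
          rw [Real.rpow_natCast]; push_cast; rfl
      _ ≤ (Z : ℝ) ^ (((2 * k : ℕ) : ℝ) * (1 / 2 + ε)) := by
          apply Real.rpow_le_rpow_of_exponent_le hZpos
          push_cast
          nlinarith
      _ = ((Z : ℝ) ^ ((2 * k : ℕ) : ℝ)) ^ (1 / 2 + ε) := by
          rw [Real.rpow_mul (by linarith)]
      _ ≤ (X : ℝ) ^ (1 / 2 + ε) := by
          apply Real.rpow_le_rpow (by positivity) _ (by positivity)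
          rw [Real.rpow_natCast]
          exact_mod_cast hZ1
  exact_mod_cast hreal

/-- If `F` is multiplicative and the number of primes `ℓ ≤ X` with `F (n + ℓ) ≡ F n (mod ℓ)` for
all `n` is at least `X ^ (1 / 2 + ε)` for arbitrarily large `X`, then `F n = n ^ k`. -/
theorem result (F : ArithmeticFunction ℤ) (hF : F.IsMultiplicative) (ε : ℝ) (hε : 0 < ε)
    (h : ∀ N : ℕ, ∃ X : ℕ, N ≤ X ∧ (X : ℝ) ^ (1 / 2 + ε) ≤
      (Set.ncard {ℓ : ℕ | ℓ ≤ X ∧ ℓ.Prime ∧
        ∀ n : ℕ, 0 < n → F (n + ℓ) ≡ F n [ZMOD (ℓ : ℤ)]} : ℝ)) :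
    ∃ k : ℕ, ∀ n : ℕ, 0 < n → F n = (n : ℤ) ^ k := by
  classical
  have hcnt : ∀ X : ℕ, Set.ncard {ℓ : ℕ | ℓ ≤ X ∧ ℓ.Prime ∧
        ∀ n : ℕ, 0 < n → F (n + ℓ) ≡ F n [ZMOD (ℓ : ℤ)]} = cntS (SF F) X := by
    intro X
    unfold cntS
    rw [← Set.ncard_coe_finset]
    congr 1
    ext ℓ
    rw [Finset.mem_coe, Finset.mem_filter, Finset.mem_Icc]
    constructor
    · rintro ⟨h1, h2, h3⟩
      exact ⟨⟨h2.pos, h1⟩, h2, h3⟩
    · rintro ⟨⟨-, h1⟩, h2, h3⟩
      exact ⟨h1, h2, h3⟩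
  simp only [hcnt] at h
  -- `S_F` is infinite
  have hS : (SF F).Infinite := by
    intro hfin
    obtain ⟨X, hX, hXc⟩ := h ((hfin.toFinset.card + 1) ^ 2)
    have h1 : cntS (SF F) X ≤ hfin.toFinset.card := by
      unfold cntS
      apply Finset.card_le_card
      intro ℓ hℓ
      rw [Set.Finite.mem_toFinset]
      exact (Finset.mem_filter.1 hℓ).2
    have h2 : ((hfin.toFinset.card + 1 : ℕ) : ℝ) ≤ (X : ℝ) ^ (1 / 2 + ε) := by
      have hX1 : (1 : ℝ) ≤ X := by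
        have : 1 ≤ X := le_trans (Nat.one_le_pow _ _ (Nat.succ_pos _)) hX
        exact_mod_cast this
      calc ((hfin.toFinset.card + 1 : ℕ) : ℝ)
          = (((hfin.toFinset.card + 1 : ℕ) : ℝ) ^ (2 : ℝ)) ^ (1 / 2 : ℝ) := by
            rw [← Real.rpow_mul (by positivity)]
            norm_num
        _ ≤ (X : ℝ) ^ (1 / 2 : ℝ) := by
            apply Real.rpow_le_rpow (by positivity) _ (by norm_num)
            have h3 : (((hfin.toFinset.card + 1) ^ 2 : ℕ) : ℝ) ≤ X := by exact_mod_cast hX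
            rw [show (2 : ℝ) = ((2 : ℕ) : ℝ) by norm_num, Real.rpow_natCast]
            exact_mod_cast hX
        _ ≤ (X : ℝ) ^ (1 / 2 + ε) := Real.rpow_le_rpow_of_exponent_le hX1 (by linarith)
    have h3 : ((hfin.toFinset.card + 1 : ℕ) : ℝ) ≤ (hfin.toFinset.card : ℝ) :=
      h2.trans (hXc.trans (by exact_mod_cast h1))
    push_cast at h3
    linarith
  obtain ⟨k, hk⟩ := exists_nat_ge (1 / ε)
  have hk1 : 1 ≤ k * ε := by
    rwa [div_le_iff₀ hε] at hk
  obtain ⟨K, hK⟩ := main_G (fun ℓ hℓ => hℓ.1) (sqF_CM hF hS) (sqF_Per F) k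
    (freq_of_half hε hk1 h)
  -- `K` is even
  have h2 := hK 2 (by norm_num)
  have hdvd : 2 ∣ K := by
    unfold sqF at h2
    have h3 := congrArg (fun x => x.factorization 2) h2
    simp only [Nat.factorization_pow, Finsupp.smul_apply, smul_eq_mul,
      Nat.prime_two.factorization_self, mul_one] at h3
    exact ⟨_, h3.symm⟩
  obtain ⟨d, rfl⟩ := hdvd
  refine ⟨d, sign_lemma hS hF.map_one (d := d) fun n hn => ?_⟩
  have h3 := hK n hn
  unfold sqF at h3
  rw [mul_comm 2 d, pow_mul] at h3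
  exact Nat.pow_left_injective (n := 2) (by norm_num) h3

end Pool.Agent.Results.MP_c7ee41_nt.HalfPower
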