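import Mathlib
import Pool.Agent.Lib.MP_c7ee41_nt.Basic

set_option autoImplicit false

/-!
# Multiplicative functions periodic modulo infinitely many primes: linear growth

If `F` is multiplicative, `S_F` is infinite and `F(n) = O(n ^ (1 + ε))` for every `ε > 0`, then
`F(n) = 1` for all `n` or `F(n) = n` for all `n`.
-/

namespace Pool.Agent.Results.MP_c7ee41_nt.LinearGrowth

open Pool.Agent.Lib.MP_c7ee41_nt

/-- growth `O(n ^ (1 + ε))` and complete multiplicativity give `|F n| ≤ n`. -/
lemma natAbs_le {F : ArithmeticFunction ℤ} (hF : F.IsMultiplicative) (hS : (SF F).Infinite)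
    (hG : ∀ ε : ℝ, 0 < ε → ∃ C : ℝ, ∀ n : ℕ, 0 < n → |(F n : ℝ)| ≤ C * (n : ℝ) ^ (1 + ε))
    {n : ℕ} (hn : 0 < n) : (F n).natAbs ≤ n := by
  by_contra hlt
  push Not at hlt
  have hn1 : n ≠ 1 := by
    rintro rfl
    rw [hF.map_one] at hlt
    simp at hlt
  have hn2 : 2 ≤ n := by omega
  have hnR : (2 : ℝ) ≤ n := by exact_mod_cast hn2
  have hlogn : 0 < Real.log n := Real.log_pos (by linarith)
  have habs : (n : ℝ) + 1 ≤ |(F n : ℝ)| := by
    have : ((n + 1 : ℕ) : ℝ) ≤ (((F n).natAbs : ℕ) : ℝ) := by exact_mod_cast hlt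
    rw [Nat.cast_natAbs, Int.cast_abs] at this
    push_cast at this
    exact this
  set δ : ℝ := Real.log (n + 1) - Real.log n with hδ
  have hδ0 : 0 < δ := by
    have := Real.log_lt_log (show (0 : ℝ) < n by linarith) (show (n : ℝ) < n + 1 by linarith)
    linarith
  set ε : ℝ := δ / (2 * Real.log n) with hε
  have hε0 : 0 < ε := by positivity
  obtain ⟨C, hC⟩ := hG ε hε0
  -- `(n + 1) ^ j ≤ C * n ^ ((1 + ε) j)`
  have h1 : ∀ j : ℕ, Real.exp (j * Real.log (n + 1)) ≤ C * Real.exp (j * ((1 + ε) * Real.log n)) := by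
    intro j
    have h2 := hC (n ^ j) (pow_pos hn j)
    rw [pow_eq hF hS hn] at h2
    push_cast at h2
    rw [abs_pow] at h2
    have h3 : ((n : ℝ) + 1) ^ j ≤ |(F n : ℝ)| ^ j := pow_le_pow_left₀ (by linarith) habs j
    have h4 : ((n : ℝ) + 1) ^ j = Real.exp (j * Real.log (n + 1)) := by
      rw [← Real.log_pow, Real.exp_log (by positivity)]
    have h5 : ((n : ℝ) ^ j) ^ (1 + ε) = Real.exp (j * ((1 + ε) * Real.log n)) := by
      rw [Real.rpow_def_of_pos (by positivity), Real.log_pow]
      congr 1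
      ring
    rw [← h4, ← h5]
    exact h3.trans h2
  have h2 : ∀ j : ℕ, Real.exp (j * (δ / 2)) ≤ C := by
    intro j
    have h3 := h1 j
    have h4 : (j : ℝ) * Real.log (n + 1) = j * (δ / 2) + j * ((1 + ε) * Real.log n) := by
      have : ε * Real.log n = δ / 2 := by
        rw [hε]
        field_simp
      have h5 : (1 + ε) * Real.log n = Real.log n + δ / 2 := by linarith
      rw [h5]
      have : Real.log (n + 1) = Real.log n + δ := by rw [hδ]; ring
      rw [this]
      ring
    rw [h4, Real.exp_add] at h3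
    exact le_of_mul_le_mul_right h3 (Real.exp_pos _)
  obtain ⟨j, hj⟩ := exists_nat_gt (C / (δ / 2))
  have h3 := h2 j
  have h4 := Real.add_one_le_exp ((j : ℝ) * (δ / 2))
  rw [div_lt_iff₀ (by positivity)] at hj
  linarith

lemma int_dvd_small {ℓ : ℕ} {a : ℤ} (h : (ℓ : ℤ) ∣ a) (h0 : -(ℓ : ℤ) < a) (h1 : a < ℓ) : a = 0 :=
  Int.eq_zero_of_abs_lt_dvd h (abs_lt.2 ⟨h0, h1⟩)

/-- `a * n ≡ ± b` -/
lemma sq_mod_of_add {ℓ x y : ℕ} (h : ℓ ∣ x + y) : x ^ 2 ≡ y ^ 2 [MOD ℓ] := by
  rw [← Int.natCast_modEq_iff]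
  have h1 : (ℓ : ℤ) ∣ (x : ℤ) + y := by exact_mod_cast h
  apply Int.modEq_of_dvd
  push_cast
  have : (y : ℤ) ^ 2 - (x : ℤ) ^ 2 = ((x : ℤ) + y) * (y - x) := by ring
  rw [this]
  exact Dvd.dvd.mul_right h1 _

theorem main {F : ArithmeticFunction ℤ} (hF : F.IsMultiplicative) (hS : (SF F).Infinite)
    (hle : ∀ n : ℕ, 0 < n → (F n).natAbs ≤ n) :
    (∀ n : ℕ, 0 < n → (F n).natAbs = 1) ∨ (∀ n : ℕ, 0 < n → (F n).natAbs = n) := by
  set f : ℕ → ℕ := fun n => (F n).natAbs with hf
  have hf1 : f 1 = 1 := by simp [hf, hF.map_one]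
  have hmul : ∀ m n, 0 < m → 0 < n → f (m * n) = f m * f n := by
    intro m n hm hn
    simp only [hf]
    rw [completely_mul hF hS hm hn, Int.natAbs_mul]
  have hpos : ∀ n, 0 < n → 1 ≤ f n := by
    intro n hn
    have := ne_zero hF hS hn
    simp only [hf]
    omega
  have hle' : ∀ n, 0 < n → f n ≤ n := hle
  have hkey : ∀ ℓ ∈ SF F, ∀ x y, 0 < x → 0 < y → ℓ ∣ x + y →
      (ℓ : ℤ) ∣ (f x : ℤ) - f y ∨ (ℓ : ℤ) ∣ (f x : ℤ) + f y := by
    intro ℓ hℓ x y hx hy h
    exact sq_lemma hF hS hℓ hx hy (sq_mod_of_add h)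
  have hkey' : ∀ ℓ ∈ SF F, ∀ x y, 0 < x → 0 < y → x ≡ y [MOD ℓ] →
      (ℓ : ℤ) ∣ (f x : ℤ) - f y ∨ (ℓ : ℤ) ∣ (f x : ℤ) + f y := by
    intro ℓ hℓ x y hx hy h
    exact sq_lemma hF hS hℓ hx hy (h.pow 2)
  have hf2 : f 2 = 1 ∨ f 2 = 2 := by
    have h1 := hpos 2 (by norm_num)
    have h2 := hle' 2 (by norm_num)
    omega
  rcases hf2 with hf2 | hf2
  · -- `f 2 = 1`
    left
    by_contra hcon
    push Not at hcon
    obtain ⟨n0, hn0⟩ := hcon
    classical
    have hex : ∃ n, 0 < n ∧ f n ≠ 1 := ⟨n0, hn0⟩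
    set n := Nat.find hex with hn
    have hspec := Nat.find_spec hex
    rw [← hn] at hspec
    obtain ⟨hnpos, hfn⟩ := hspec
    have hmin : ∀ m, 0 < m → m < n → f m = 1 := by
      intro m hm hlt
      have := Nat.find_min hex hlt
      push Not at this
      exact this hm
    have hn3 : 3 ≤ n := by
      by_contra h
      have : n = 1 ∨ n = 2 := by omega
      rcases this with h | h
      · rw [h] at hfn; exact hfn hf1
      · rw [h] at hfn; exact hfn hf2
    obtain ⟨ℓ, hℓ, hlt⟩ := hS.exists_gt (10 * n * n)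
    set r := ℓ % n with hr
    set k := ℓ / n with hk
    have hdiv : n * k + r = ℓ := Nat.div_add_mod ℓ n
    have hrn : r < n := Nat.mod_lt _ hnpos
    have hr0 : 0 < r := by
      rcases Nat.eq_zero_or_pos r with h | h
      · exfalso
        have h2 : n ∣ ℓ := Nat.dvd_of_mod_eq_zero h
        rcases (Nat.dvd_prime hℓ.1).1 h2 with h3 | h3
        · omega
        · nlinarith
      · exact h
    have hk10 : 9 * n ≤ k := by
      by_contra h
      push Not at h
      have h2 : n * k ≤ n * (9 * n) := Nat.mul_le_mul_left _ h.le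
      nlinarith
    have hk0 : 0 < k := by omega
    have hfk := hle' k hk0
    have hfk1 := hpos k hk0
    have hfn1 := hpos n hnpos
    have hfnle := hle' n hnpos
    -- first relation
    have hA := hkey ℓ hℓ (n * k) r (Nat.mul_pos hnpos hk0) hr0 (by rw [hdiv])
    rw [hmul n k hnpos hk0, hmin r hr0 hrn] at hA
    have hprod : f n * f k ≤ n * k := Nat.mul_le_mul hfnle hfk
    have hprod2 : 2 ≤ f n * f k := by
      have : 2 ≤ f n := by omega
      calc 2 = 2 * 1 := by ring
        _ ≤ f n * f k := Nat.mul_le_mul this hfk1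
    have hA2 : f n * f k = n * k ∧ r = 1 := by
      rcases hA with h | h
      · exfalso
        have := int_dvd_small h (by push_cast; nlinarith) (by push_cast; nlinarith)
        push_cast at this
        have h3 : (f n : ℤ) * f k = 1 := by linarith
        have h4 : f n * f k = 1 := by exact_mod_cast h3
        omega
      · have h1 : ℓ ∣ f n * f k + 1 := by exact_mod_cast h
        have h2 := Nat.le_of_dvd (by omega) h1
        constructor <;> omega
    obtain ⟨hA3, hr1⟩ := hA2
    have hfn' : f n = n := by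
      by_contra h
      have h2 : f n < n := by omega
      have h3 : f n * f k < n * k := by
        calc f n * f k ≤ f n * k := Nat.mul_le_mul_left _ hfk
          _ < n * k := Nat.mul_lt_mul_of_pos_right h2 hk0
      omega
    have hfk' : f k = k := by
      rw [hfn'] at hA3
      exact Nat.eq_of_mul_eq_mul_left hnpos hA3
    rcases Nat.even_or_odd' k with ⟨u, hu | hu⟩
    · -- `k` even
      have hu0 : 0 < u := by omega
      have h1 : f k = f u := by
        rw [hu, hmul 2 u (by norm_num) hu0, hf2, one_mul]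
      have h2 := hle' u hu0
      omega
    · -- `k` odd
      have hu0 : 0 < u := by omega
      have h1 : f (k + 1) = f (u + 1) := by
        have : k + 1 = 2 * (u + 1) := by omega
        rw [this, hmul 2 (u + 1) (by norm_num) (by omega), hf2, one_mul]
      have h2 := hle' (u + 1) (by omega)
      have hmod : n * (k + 1) ≡ n - 1 [MOD ℓ] := by
        have : n * (k + 1) = (n - 1) + ℓ := by
          rw [mul_add, mul_one]
          omega
        rw [this]
        exact (Nat.modEq_iff_dvd' (by omega)).2 (by simp) |>.symm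
      have hB := hkey' ℓ hℓ (n * (k + 1)) (n - 1) (Nat.mul_pos hnpos (by omega)) (by omega) hmod
      rw [hmul n (k + 1) hnpos (by omega), hmin (n - 1) (by omega) (by omega), hfn'] at hB
      have h3 : n * f (k + 1) ≤ n * (u + 1) := Nat.mul_le_mul_left _ (by omega)
      have h4 : 1 ≤ f (k + 1) := hpos _ (by omega)
      have h5 : n * 1 ≤ n * f (k + 1) := Nat.mul_le_mul_left _ h4
      have h6 : n * (u + 1) + n * (u + 1) = n * k + n := by
        rw [hu]; ring
      have h7 : n * (9 * n) ≤ n * k := Nat.mul_le_mul_left _ hk10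
      have h8 : 9 * n ≤ n * (9 * n) := by
        calc 9 * n = 1 * (9 * n) := by ring
          _ ≤ n * (9 * n) := Nat.mul_le_mul_right _ hnpos
      have hlt2 : n * f (k + 1) + 1 < ℓ := by omega
      rcases hB with h | h
      · have h9 := int_dvd_small h (by push_cast; omega)
          (by
            have : ((n * f (k + 1) : ℕ) : ℤ) + 1 < ℓ := by exact_mod_cast hlt2
            push_cast at this ⊢
            linarith)
        push_cast at h9
        have h10 : ((n * f (k + 1) : ℕ) : ℤ) = 1 := by push_cast; linarith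
        have h11 : n * f (k + 1) = 1 := by exact_mod_cast h10
        omega
      · have h1 : ℓ ∣ n * f (k + 1) + 1 := by exact_mod_cast h
        have h2 := Nat.le_of_dvd (by omega) h1
        omega
  · -- `f 2 = 2`
    right
    by_contra hcon
    push Not at hcon
    obtain ⟨n0, hn0⟩ := hcon
    classical
    have hex : ∃ n, 0 < n ∧ f n ≠ n := ⟨n0, hn0⟩
    set n := Nat.find hex with hn
    have hspec := Nat.find_spec hex
    rw [← hn] at hspec
    obtain ⟨hnpos, hfn⟩ := hspec
    have hmin : ∀ m, 0 < m → m < n → f m = m := by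
      intro m hm hlt
      have := Nat.find_min hex hlt
      push Not at this
      exact this hm
    have hfnle := hle' n hnpos
    have hfnlt : f n ≤ n - 1 := by omega
    have hn3 : 3 ≤ n := by
      by_contra h
      have : n = 1 ∨ n = 2 := by omega
      rcases this with h | h
      · rw [h] at hfn; exact hfn hf1
      · rw [h] at hfn; exact hfn hf2
    have hnodd : n % 2 = 1 := by
      by_contra h
      obtain ⟨u, hu⟩ : ∃ u, n = 2 * u := ⟨n / 2, by omega⟩
      apply hfn
      rw [hu, hmul 2 u (by norm_num) (by omega), hf2, hmin u (by omega) (by omega)]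
    obtain ⟨ℓ, hℓ, hlt⟩ := hS.exists_gt (10 * n * n)
    set r := ℓ % n with hr
    set k := ℓ / n with hk
    have hdiv : n * k + r = ℓ := Nat.div_add_mod ℓ n
    have hrn : r < n := Nat.mod_lt _ hnpos
    have hℓodd : ℓ % 2 = 1 := by
      rcases hℓ.1.eq_two_or_odd with h | h
      · exfalso; nlinarith
      · exact h
    have hr0 : 0 < r := by
      rcases Nat.eq_zero_or_pos r with h | h
      · exfalso
        have h2 : n ∣ ℓ := Nat.dvd_of_mod_eq_zero h
        rcases (Nat.dvd_prime hℓ.1).1 h2 with h3 | h3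
        · omega
        · nlinarith
      · exact h
    have hk10 : 9 * n ≤ k := by
      by_contra h
      push Not at h
      have h2 : n * k ≤ n * (9 * n) := Nat.mul_le_mul_left _ h.le
      nlinarith
    have hk0 : 0 < k := by omega
    have hfk := hle' k hk0
    have hfn1 := hpos n hnpos
    have hsplit : n * k = (n - 1) * k + k := by
      obtain ⟨n', hn'⟩ : ∃ n', n = n' + 1 := ⟨n - 1, by omega⟩
      rw [hn']
      simp
      ring
    have hsplit2 : n * (k + 1) = (n - 1) * (k + 1) + (k + 1) := by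
      obtain ⟨n', hn'⟩ : ∃ n', n = n' + 1 := ⟨n - 1, by omega⟩
      rw [hn']
      simp
      ring
    have hexp : n * (k + 1) = n * k + n := by ring
    -- first relation
    have hA := hkey ℓ hℓ (n * k) r (Nat.mul_pos hnpos hk0) hr0 (by rw [hdiv])
    rw [hmul n k hnpos hk0, hmin r hr0 hrn] at hA
    have hprod : f n * f k ≤ (n - 1) * k := Nat.mul_le_mul hfnlt hfk
    have hA2 : f n * f k = r := by
      rcases hA with h | h
      · have hb : f n * f k < ℓ := by omega
        have hb' : ((f n * f k : ℕ) : ℤ) < ℓ := by exact_mod_cast hb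
        have := int_dvd_small h (by omega) (by push_cast at hb' ⊢; omega)
        have h4 : ((f n * f k : ℕ) : ℤ) = r := by linarith
        exact_mod_cast h4
      · exfalso
        have h1 : ℓ ∣ f n * f k + r := by exact_mod_cast h
        have h2 := Nat.le_of_dvd (by omega) h1
        omega
    -- second relation
    have hmod : n * (k + 1) ≡ n - r [MOD ℓ] := by
      have : n * (k + 1) = (n - r) + ℓ := by omega
      rw [this]
      exact (Nat.modEq_iff_dvd' (by omega)).2 (by simp) |>.symm
    have hB := hkey' ℓ hℓ (n * (k + 1)) (n - r) (Nat.mul_pos hnpos (by omega)) (by omega) hmod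
    rw [hmul n (k + 1) hnpos (by omega), hmin (n - r) (by omega) (by omega)] at hB
    have hfk2 := hle' (k + 1) (by omega)
    have hprod2 : f n * f (k + 1) ≤ (n - 1) * (k + 1) := Nat.mul_le_mul hfnlt hfk2
    have hB2 : f n * f (k + 1) = n - r := by
      rcases hB with h | h
      · have hb : f n * f (k + 1) < ℓ := by omega
        have hb' : ((f n * f (k + 1) : ℕ) : ℤ) < ℓ := by exact_mod_cast hb
        have := int_dvd_small h (by omega) (by push_cast at hb' ⊢; omega)
        have h4 : ((f n * f (k + 1) : ℕ) : ℤ) = ((n - r : ℕ) : ℤ) := by linarith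
        exact_mod_cast h4
      · exfalso
        have h1 : ℓ ∣ f n * f (k + 1) + (n - r) := by exact_mod_cast h
        have h2 := Nat.le_of_dvd (by omega) h1
        omega
    -- parity
    rcases Nat.even_or_odd' k with ⟨u, hu | hu⟩
    · have hu0 : 0 < u := by omega
      rw [hu, hmul 2 u (by norm_num) hu0, hf2] at hA2
      have h1 : r % 2 = 0 := by
        rw [← hA2]
        have : f n * (2 * f u) = 2 * (f n * f u) := by ring
        omega
      have h2 : (n * k) % 2 = 0 := by
        rw [hu]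
        have : n * (2 * u) = 2 * (n * u) := by ring
        omega
      omega
    · have hk1 : k + 1 = 2 * (u + 1) := by omega
      rw [hk1, hmul 2 (u + 1) (by norm_num) (by omega), hf2] at hB2
      have h1 : (n - r) % 2 = 0 := by
        rw [← hB2]
        have : f n * (2 * f (u + 1)) = 2 * (f n * f (u + 1)) := by ring
        omega
      have h2 : (n * (k + 1)) % 2 = 0 := by
        rw [hk1]
        have : n * (2 * (u + 1)) = 2 * (n * (u + 1)) := by ring
        omega
      omega

/-- If `F : ℕ → ℤ` is multiplicative, `F (n + ℓ) ≡ F n (mod ℓ)` for all `n ≥ 1` holds for infinitely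
many primes `ℓ`, and `F n = O(n ^ (1 + ε))` for every `ε > 0`, then `F n = n ^ k` for all `n`, with
`k = 0` or `k = 1`. -/
theorem result (F : ArithmeticFunction ℤ) (hF : F.IsMultiplicative)
    (hS : Set.Infinite {ℓ : ℕ | ℓ.Prime ∧ ∀ n : ℕ, 0 < n → F (n + ℓ) ≡ F n [ZMOD (ℓ : ℤ)]})
    (hG : ∀ ε : ℝ, 0 < ε → ∃ C : ℝ, ∀ n : ℕ, 0 < n → |(F n : ℝ)| ≤ C * (n : ℝ) ^ (1 + ε)) :
    ∃ k : ℕ, k ≤ 1 ∧ ∀ n : ℕ, 0 < n → F n = (n : ℤ) ^ k := by
  have hle : ∀ n : ℕ, 0 < n → (F n).natAbs ≤ n := fun n hn => natAbs_le hF hS hG hn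
  rcases main hF hS hle with h | h
  · refine ⟨0, by norm_num, sign_lemma hS hF.map_one (d := 0) (fun n hn => ?_)⟩
    rw [h n hn, pow_zero]
  · refine ⟨1, le_rfl, sign_lemma hS hF.map_one (d := 1) (fun n hn => ?_)⟩
    rw [h n hn, pow_one]

end Pool.Agent.Results.MP_c7ee41_nt.LinearGrowth
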